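import Pool.Agent.Work.MP_510402_an.Interface

/-!
# Block CARA (helper89)
-/

set_option autoImplicit false

namespace Pool.HAP

open scoped BigOperators

theorem stmt_Cara : Stmt_Cara := by
  classical
  intro n U M hM
  rw [convexHull_eq_union] at hM
  simp only [Set.mem_iUnion] at hM
  obtain ⟨t, htU, hind, hMt⟩ := hM
  -- the number of points
  have hcard : t.card ≤ n ^ 2 + 1 := by
    have h1 := hind.card_le_finrank_succ
    have h2 : Module.finrank ℝ (vectorSpan ℝ (Set.range ((↑) : t → Matrix (Fin n) (Fin n) ℝ))) ≤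
        n ^ 2 := by
      refine (Submodule.finrank_le _).trans (le_of_eq ?_)
      rw [Module.finrank_matrix]
      simp [sq]
    rw [Fintype.card_coe] at h1
    omega
  obtain ⟨w, hw0, hw1, hwM⟩ := (Finset.mem_convexHull' (R := ℝ)).1 hMt
  have hne : t.Nonempty := by
    rw [Finset.nonempty_iff_ne_empty]
    rintro rfl
    simp at hw1
  obtain ⟨u0, hu0⟩ := hne
  -- enumerate
  let e := t.equivFin
  let f : Fin (n ^ 2 + 1) → Matrix (Fin n) (Fin n) ℝ := fun i =>
    if h : (i : ℕ) < t.card then ((e.symm ⟨i, h⟩ : t) : Matrix (Fin n) (Fin n) ℝ) else u0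
  let c : Fin (n ^ 2 + 1) → ℝ := fun i =>
    if h : (i : ℕ) < t.card then w ((e.symm ⟨i, h⟩ : t) : Matrix (Fin n) (Fin n) ℝ) else 0
  have hsum : ∀ {E : Type} [AddCommMonoid E] (F : Matrix (Fin n) (Fin n) ℝ → E),
      ∑ i : Fin (n ^ 2 + 1), (if h : (i : ℕ) < t.card then
        F ((e.symm ⟨i, h⟩ : t) : Matrix (Fin n) (Fin n) ℝ) else 0) = ∑ x ∈ t, F x := by
    intro E _ F
    have h1 : ∑ x ∈ t, F x = ∑ k : Fin t.card, F (e.symm k : Matrix (Fin n) (Fin n) ℝ) := by
      rw [← Finset.sum_coe_sort t]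
      exact (Equiv.sum_comp e.symm fun x : t => F x).symm
    rw [h1]
    obtain ⟨d, hd⟩ := Nat.exists_eq_add_of_le hcard
    have h2 := Fin.sum_univ_eq_sum_range (fun i => if h : i < t.card then
        F ((e.symm ⟨i, h⟩ : t) : Matrix (Fin n) (Fin n) ℝ) else 0) (n ^ 2 + 1)
    rw [h2, hd, Finset.sum_range_add, Finset.sum_eq_zero (s := Finset.range d), add_zero,
      ← Fin.sum_univ_eq_sum_range]
    · exact Finset.sum_congr rfl fun k _ => by simp
    · intro i _
      rw [dif_neg (by omega)]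
  refine ⟨c, f, ?_, ?_, ?_, ?_⟩
  · intro i
    simp only [c]
    split
    · exact hw0 _ (e.symm _).2
    · exact le_rfl
  · rw [← hw1]
    exact hsum w
  · intro i
    simp only [f]
    split
    · exact htU (e.symm _).2
    · exact htU hu0
  · rw [← hwM, ← hsum fun x => w x • x]
    refine Finset.sum_congr rfl fun i _ => ?_
    simp only [c, f]
    split
    · rfl
    · exact zero_smul _ _

end Pool.HAP
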