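import Pool.Agent.Work.MP_510402_an.Interface

/-!
# Block NORM (helper89)
-/

set_option autoImplicit false

namespace Pool.HAP

open scoped BigOperators InnerProductSpace

namespace NormB

/-- contractions act on vectors of a Euclidean space -/
theorem contr_vec {ι : Type} [Fintype ι] {a b : ℕ} {A : Matrix (Fin a) (Fin b) ℝ} (hA : Contr A)
    (u : Fin b → EuclideanSpace ℝ ι) : ∑ i, ‖∑ j, A i j • u j‖ ^ 2 ≤ ∑ j, ‖u j‖ ^ 2 := by
  have h1 : ∀ i, ‖∑ j, A i j • u j‖ ^ 2 = ∑ k, (∑ j, A i j * u j k) ^ 2 := by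
    intro i
    rw [EuclideanSpace.norm_sq_eq]
    refine Finset.sum_congr rfl fun k _ => ?_
    rw [Real.norm_eq_abs, sq_abs]
    congr 1
    simp
  have h2 : ∀ j, ‖u j‖ ^ 2 = ∑ k, (u j k) ^ 2 := by
    intro j
    rw [EuclideanSpace.norm_sq_eq]
    refine Finset.sum_congr rfl fun k _ => ?_
    rw [Real.norm_eq_abs, sq_abs]
  simp_rw [h1, h2]
  rw [Finset.sum_comm, Finset.sum_comm (s := Finset.univ (α := Fin b))]
  exact Finset.sum_le_sum fun k _ => hA fun j => u j k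

/-- matrices and seminorms -/
theorem hs_vec {V : Type} [AddCommGroup V] [Module ℝ V] (N : Seminorm ℝ V) {a b : ℕ}
    (A : Matrix (Fin a) (Fin b) ℝ) (v : Fin b → V) :
    ∑ i, N (∑ j, A i j • v j) ^ 2 ≤ HS A * ∑ j, N (v j) ^ 2 := by
  unfold HS
  rw [Finset.sum_mul]
  refine Finset.sum_le_sum fun i _ => ?_
  have h1 : N (∑ j, A i j • v j) ≤ ∑ j, |A i j| * N (v j) := by
    refine (Finset.le_sum_of_subadditive N (map_zero N).le (map_add_le_add N) _ _).trans ?_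
    exact Finset.sum_le_sum fun j _ => (map_smul_eq_mul N _ _).le
  have h2 := Finset.sum_mul_sq_le_sq_mul_sq Finset.univ (fun j => |A i j|) fun j => N (v j)
  simp only [sq_abs] at h2
  exact (pow_le_pow_left₀ (apply_nonneg N _) h1 2).trans h2

/-- the seminorm `2 ^ m * max |⟪φ l, v⟫|` -/
theorem exists_q {ι : Type} [Fintype ι] {L : ℕ} (φ : Fin L → EuclideanSpace ℝ ι) (m : ℕ) :
    ∃ q : Seminorm ℝ (EuclideanSpace ℝ ι), (∀ x, (∀ l, (2 : ℝ) ^ m * |⟪φ l, x⟫_ℝ| ≤ 1) → q x ≤ 1) ∧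
      ∀ l x, (2 : ℝ) ^ m * |⟪φ l, x⟫_ℝ| ≤ q x := by
  let f : Fin L → Seminorm ℝ (EuclideanSpace ℝ ι) := fun l =>
    ((2 : NNReal) ^ m) • (normSeminorm ℝ ℝ).comp (innerₛₗ ℝ (φ l))
  have hf : ∀ l x, f l x = (2 : ℝ) ^ m * |⟪φ l, x⟫_ℝ| := by
    intro l x
    simp [f, NNReal.smul_def]
  refine ⟨Finset.univ.sup f, fun x hx => ?_, fun l x => ?_⟩
  · refine Seminorm.finset_sup_apply_le zero_le_one fun l _ => ?_
    rw [hf]
    exact hx l
  · rw [← hf]
    exact Seminorm.le_def.1 (Finset.le_sup (f := f) (Finset.mem_univ l)) x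

/-- the scale of seminorms -/
theorem exists_K (hC : Stmt_Conv) {ι : Type} [Fintype ι] (q : Seminorm ℝ (EuclideanSpace ℝ ι)) :
    ∃ K : ℕ → Seminorm ℝ (EuclideanSpace ℝ ι),
      (∀ s x v, K s x ^ 2 * 4 ^ s ≤ ‖x - v‖ ^ 2 * 4 ^ s + q v ^ 2) ∧
      ∀ s x, ∀ ε : ℝ, 0 < ε → ∃ v, ‖x - v‖ ^ 2 * 4 ^ s + q v ^ 2 ≤ (K s x ^ 2 + ε) * 4 ^ s := by
  have h1 : ∀ s : ℕ, ∃ K : Seminorm ℝ (EuclideanSpace ℝ ι),
      (∀ x v, K x ^ 2 * 4 ^ s ≤ ‖x - v‖ ^ 2 * 4 ^ s + q v ^ 2) ∧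
      ∀ x, ∀ ε : ℝ, 0 < ε → ∃ v, ‖x - v‖ ^ 2 * 4 ^ s + q v ^ 2 ≤ (K x ^ 2 + ε) * 4 ^ s := by
    intro s
    obtain ⟨K, hK1, hK2⟩ := hC ι (((2 : NNReal) ^ s)⁻¹ • q)
    have h4 : (0 : ℝ) < 4 ^ s := by positivity
    have h5 : ∀ v, (((2 : NNReal) ^ s)⁻¹ • q : Seminorm ℝ (EuclideanSpace ℝ ι)) v ^ 2 * 4 ^ s
        = q v ^ 2 := by
      intro v
      have h6 : (((2 : NNReal) ^ s)⁻¹ • q : Seminorm ℝ (EuclideanSpace ℝ ι)) v
          = ((2 : ℝ) ^ s)⁻¹ * q v := by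
        simp [NNReal.smul_def]
      rw [h6, mul_pow, inv_pow, ← pow_mul, show (4 : ℝ) = 2 ^ 2 by norm_num, ← pow_mul,
        mul_comm s 2]
      field_simp
    refine ⟨K, fun x v => ?_, fun x ε hε => ?_⟩
    · have h7 := mul_le_mul_of_nonneg_right (hK1 x v) h4.le
      rwa [add_mul, h5] at h7
    · obtain ⟨v, hv⟩ := hK2 x ε hε
      refine ⟨v, ?_⟩
      have h7 := mul_le_mul_of_nonneg_right hv h4.le
      rwa [add_mul, h5] at h7
  choose K hK using h1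
  exact ⟨K, fun s => (hK s).1, fun s => (hK s).2⟩

end NormB

open NormB

theorem stmt_Norm (hC : Stmt_Conv) (hS : Stmt_Sum2) : Stmt_Norm := by
  intro ι _ L φ m β _ hφ hβ1 hβ2
  obtain ⟨q, hq1, hq2⟩ := exists_q φ m
  obtain ⟨K, hK1, hK2⟩ := exists_K hC q
  have hβ0 : (0 : ℝ) ≤ β := by linarith
  have hβ' : (0 : ℝ) ≤ β - 1 := by linarith
  obtain ⟨p, hp'⟩ := hS (EuclideanSpace ℝ ι) (m + 2)
    (Fin.cons (normSeminorm ℝ (EuclideanSpace ℝ ι)) fun s : Fin (m + 1) => K s)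
    (Fin.cons 1 fun s : Fin (m + 1) => (β - 1) * β ^ (s : ℕ)) (by
      intro i
      refine Fin.cases ?_ (fun s => ?_) i
      · simp
      · simp only [Fin.cons_succ]
        positivity)
  have hp : ∀ x, p x ^ 2 = ‖x‖ ^ 2 + (β - 1) * ∑ s ∈ Finset.range (m + 1), β ^ s * K s x ^ 2 := by
    intro x
    rw [hp', Fin.sum_univ_succ]
    simp only [Fin.cons_zero, Fin.cons_succ, coe_normSeminorm, one_mul]
    congr 1
    rw [Finset.mul_sum, ← Fin.sum_univ_eq_sum_range (fun s => (β - 1) * (β ^ s * K s x ^ 2))]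
    exact Finset.sum_congr rfl fun s _ => by ring
  have h4 : ∀ s : ℕ, (0 : ℝ) < 4 ^ s := fun s => by positivity
  -- `K_s ≤ norm`
  have hKn : ∀ s x, K s x ^ 2 ≤ ‖x‖ ^ 2 := by
    intro s x
    have h := hK1 s x 0
    rw [sub_zero, map_zero] at h
    have h' : K s x ^ 2 * 4 ^ s ≤ ‖x‖ ^ 2 * 4 ^ s := by linarith
    exact le_of_mul_le_mul_right h' (h4 s)
  have hK0 : ∀ s x, 0 ≤ K s x ^ 2 := fun s x => sq_nonneg _
  have hgeo : ∀ n : ℕ, (β - 1) * ∑ s ∈ Finset.range n, β ^ s = β ^ n - 1 := fun n => by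
    rw [mul_comm]
    exact geom_sum_mul β n
  have hlow : ∀ x, ‖x‖ ^ 2 ≤ p x ^ 2 := by
    intro x
    rw [hp]
    have : 0 ≤ (β - 1) * ∑ s ∈ Finset.range (m + 1), β ^ s * K s x ^ 2 :=
      mul_nonneg hβ' (Finset.sum_nonneg fun s _ => by positivity)
    linarith
  have hup : ∀ x, p x ^ 2 ≤ β ^ (m + 1) * ‖x‖ ^ 2 := by
    intro x
    rw [hp]
    have h1 : ∑ s ∈ Finset.range (m + 1), β ^ s * K s x ^ 2 ≤
        (∑ s ∈ Finset.range (m + 1), β ^ s) * ‖x‖ ^ 2 := by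
      rw [Finset.sum_mul]
      exact Finset.sum_le_sum fun s _ => mul_le_mul_of_nonneg_left (hKn s x) (by positivity)
    have h2 := mul_le_mul_of_nonneg_left h1 hβ'
    rw [← mul_assoc, hgeo] at h2
    linarith
  refine ⟨p, ⟨fun x => ?_, hup, ?_, ?_, ?_⟩⟩
  · exact abs_le_of_sq_le_sq' (hlow x) (apply_nonneg p x) |>.2
  · -- small
    intro x hx hxl
    have hqx := hq1 x hxl
    have h1 : ∀ s, K s x ^ 2 ≤ (4 ^ s)⁻¹ := by
      intro s
      have h := hK1 s x x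
      rw [sub_self, norm_zero] at h
      have h2 : q x ^ 2 ≤ 1 := by
        have := apply_nonneg q x
        nlinarith
      rw [← one_div, le_div_iff₀ (h4 s)]
      nlinarith
    have h2 : ∀ n : ℕ, ∑ s ∈ Finset.range n, β ^ s * K s x ^ 2 ≤ 2 - 2 * (1 / 2) ^ n := by
      intro n
      induction n with
      | zero => simp
      | succ n ih =>
        rw [Finset.sum_range_succ]
        have h3 : β ^ n * K n x ^ 2 ≤ (1 / 2) ^ n := by
          have h5 : β ^ n ≤ 2 ^ n := pow_le_pow_left₀ hβ0 hβ2 n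
          have h6 : β ^ n * K n x ^ 2 ≤ 2 ^ n * (4 ^ n)⁻¹ :=
            mul_le_mul h5 (h1 n) (hK0 n x) (by positivity)
          refine h6.trans (le_of_eq ?_)
          rw [show (4 : ℝ) = 2 * 2 by norm_num, mul_pow, one_div, inv_pow]
          field_simp
        have h7 : (1 / 2 : ℝ) ^ (n + 1) = (1 / 2) ^ n / 2 := by
          rw [pow_succ]
          ring
        rw [h7]
        linarith
    have h3 : p x ^ 2 ≤ 2 ^ 2 := by
      rw [hp]
      have h5 := h2 (m + 1)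
      have h6 : (0 : ℝ) < (1 / 2) ^ (m + 1) := by positivity
      have h7 : 0 ≤ ∑ s ∈ Finset.range (m + 1), β ^ s * K s x ^ 2 :=
        Finset.sum_nonneg fun s _ => by positivity
      nlinarith
    exact abs_le_of_sq_le_sq' h3 (by norm_num) |>.2
  · -- func
    intro l x
    have hx0 : ⟪φ l, x⟫_ℝ ^ 2 ≤ 2 * ‖x‖ ^ 2 := by
      have h := abs_real_inner_le_norm (φ l) x
      have h2 := pow_le_pow_left₀ (abs_nonneg _) h 2
      rw [sq_abs, mul_pow] at h2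
      exact h2.trans (mul_le_mul_of_nonneg_right (hφ l) (sq_nonneg _))
    have hxs : ∀ s, s ≤ m → ⟪φ l, x⟫_ℝ ^ 2 ≤ 3 * K s x ^ 2 := by
      intro s hs
      refine le_of_forall_pos_le_add fun ε hε => ?_
      obtain ⟨v, hv⟩ := hK2 s x (ε / 3) (by positivity)
      have h1 : ⟪φ l, x⟫_ℝ = ⟪φ l, x - v⟫_ℝ + ⟪φ l, v⟫_ℝ := by
        rw [← inner_add_right, sub_add_cancel]
      have ha : ⟪φ l, x - v⟫_ℝ ^ 2 ≤ 2 * ‖x - v‖ ^ 2 := by
        have h := abs_real_inner_le_norm (φ l) (x - v)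
        have h2 := pow_le_pow_left₀ (abs_nonneg _) h 2
        rw [sq_abs, mul_pow] at h2
        exact h2.trans (mul_le_mul_of_nonneg_right (hφ l) (sq_nonneg _))
      have hb : ⟪φ l, v⟫_ℝ ^ 2 * 4 ^ m ≤ q v ^ 2 := by
        have h := hq2 l v
        have h2 := pow_le_pow_left₀ (by positivity) h 2
        rw [mul_pow, sq_abs, ← pow_mul, mul_comm m 2, pow_mul] at h2
        norm_num at h2
        linarith
      have hb' : ⟪φ l, v⟫_ℝ ^ 2 * 4 ^ s ≤ q v ^ 2 := by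
        refine le_trans ?_ hb
        exact mul_le_mul_of_nonneg_left (pow_le_pow_right₀ (by norm_num) hs) (sq_nonneg _)
      -- (A + B)^2 ≤ 3 (A^2/2 + B^2)
      have h2 : ⟪φ l, x⟫_ℝ ^ 2 ≤ 3 * (⟪φ l, x - v⟫_ℝ ^ 2 / 2 + ⟪φ l, v⟫_ℝ ^ 2) := by
        rw [h1]
        nlinarith [sq_nonneg (⟪φ l, x - v⟫_ℝ - 2 * ⟪φ l, v⟫_ℝ)]
      have h3 : (⟪φ l, x - v⟫_ℝ ^ 2 / 2 + ⟪φ l, v⟫_ℝ ^ 2) * 4 ^ s ≤ (K s x ^ 2 + ε / 3) * 4 ^ s := by
        refine le_trans ?_ hv
        rw [add_mul]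
        refine add_le_add ?_ hb'
        exact mul_le_mul_of_nonneg_right (by linarith) (h4 s).le
      have h5 := le_of_mul_le_mul_right h3 (h4 s)
      linarith
    have h1 : ⟪φ l, x⟫_ℝ ^ 2 * ∑ s ∈ Finset.range (m + 1), β ^ s ≤
        3 * ∑ s ∈ Finset.range (m + 1), β ^ s * K s x ^ 2 := by
      rw [Finset.mul_sum, Finset.mul_sum]
      refine Finset.sum_le_sum fun s hs => ?_
      have h2 := hxs s (by simpa [Nat.lt_succ_iff] using hs)
      have h3 : (0 : ℝ) ≤ β ^ s := by positivity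
      nlinarith
    have h2 := mul_le_mul_of_nonneg_left h1 hβ'
    have h3 : (β - 1) * (⟪φ l, x⟫_ℝ ^ 2 * ∑ s ∈ Finset.range (m + 1), β ^ s) =
        ⟪φ l, x⟫_ℝ ^ 2 * (β ^ (m + 1) - 1) := by
      rw [← hgeo (m + 1)]
      ring
    rw [h3] at h2
    rw [hp]
    nlinarith [sq_nonneg ⟪φ l, x⟫_ℝ]
  · -- interp
    intro r a b A hA hHS y
    have hS0 := contr_vec hA y
    rcases Nat.lt_or_ge (m + 1) r with hr | hr
    · rw [min_eq_right hr.le]
      calc ∑ i, p (∑ j, A i j • y j) ^ 2 ≤ ∑ i, β ^ (m + 1) * ‖∑ j, A i j • y j‖ ^ 2 :=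
            Finset.sum_le_sum fun i _ => hup _
        _ = β ^ (m + 1) * ∑ i, ‖∑ j, A i j • y j‖ ^ 2 := by rw [Finset.mul_sum]
        _ ≤ β ^ (m + 1) * ∑ j, p (y j) ^ 2 := by
            refine mul_le_mul_of_nonneg_left (hS0.trans ?_) (by positivity)
            exact Finset.sum_le_sum fun j _ => hlow _
    · rw [min_eq_left hr]
      -- the scales `s ≥ r`
      have hbig : ∀ s, ∑ i, K (r + s) (∑ j, A i j • y j) ^ 2 ≤ ∑ j, K s (y j) ^ 2 := by
        intro s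
        refine le_of_forall_pos_le_add fun ε hε => ?_
        have hb1 : (0 : ℝ) < (b : ℝ) + 1 := by positivity
        choose v hv using fun j => hK2 s (y j) (ε / (b + 1)) (by positivity)
        have h1 : ∑ i, K (r + s) (∑ j, A i j • y j) ^ 2 * 4 ^ (r + s) ≤
            ∑ i, (‖∑ j, A i j • (y j - v j)‖ ^ 2 * 4 ^ (r + s) + q (∑ j, A i j • v j) ^ 2) := by
          refine Finset.sum_le_sum fun i _ => ?_
          have h := hK1 (r + s) (∑ j, A i j • y j) (∑ j, A i j • v j)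
          have h2 : ∑ j, A i j • y j - ∑ j, A i j • v j = ∑ j, A i j • (y j - v j) := by
            rw [← Finset.sum_sub_distrib]
            exact Finset.sum_congr rfl fun j _ => by rw [smul_sub]
          rwa [h2] at h
        rw [Finset.sum_add_distrib, ← Finset.sum_mul, ← Finset.sum_mul] at h1
        have h2 := contr_vec hA fun j => y j - v j
        have h3 := hs_vec q A v
        have h5 : HS A * ∑ j, q (v j) ^ 2 ≤ 4 ^ r * ∑ j, q (v j) ^ 2 :=
          mul_le_mul_of_nonneg_right hHS (Finset.sum_nonneg fun j _ => sq_nonneg _)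
        have h6 : ∑ j, (‖y j - v j‖ ^ 2 * 4 ^ s + q (v j) ^ 2) ≤
            ∑ j, (K s (y j) ^ 2 + ε / (b + 1)) * 4 ^ s := Finset.sum_le_sum fun j _ => hv j
        rw [Finset.sum_add_distrib, ← Finset.sum_mul, ← Finset.sum_mul, Finset.sum_add_distrib,
          Finset.sum_const, Finset.card_univ, Fintype.card_fin, nsmul_eq_mul] at h6
        have h7 : (b : ℝ) * (ε / (b + 1)) ≤ ε := by
          rw [mul_div_assoc', div_le_iff₀ hb1]
          nlinarith
        have h8 : (∑ i, K (r + s) (∑ j, A i j • y j) ^ 2) * 4 ^ (r + s) ≤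
            (∑ j, K s (y j) ^ 2 + ε) * 4 ^ (r + s) := by
          rw [pow_add] at h1 ⊢
          have h9 : (∑ i, ‖∑ j, A i j • (y j - v j)‖ ^ 2) * (4 ^ r * 4 ^ s) ≤
              (∑ j, ‖y j - v j‖ ^ 2) * (4 ^ r * 4 ^ s) :=
            mul_le_mul_of_nonneg_right h2 (by positivity)
          have h10 : (4 : ℝ) ^ r * ((∑ j, ‖y j - v j‖ ^ 2) * 4 ^ s + ∑ j, q (v j) ^ 2) ≤
              4 ^ r * ((∑ j, K s (y j) ^ 2 + b * (ε / (b + 1))) * 4 ^ s) :=
            mul_le_mul_of_nonneg_left h6 (h4 r).le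
          have h11 : (4 : ℝ) ^ r * ((∑ j, K s (y j) ^ 2 + b * (ε / (b + 1))) * 4 ^ s) ≤
              4 ^ r * ((∑ j, K s (y j) ^ 2 + ε) * 4 ^ s) := by
            refine mul_le_mul_of_nonneg_left (mul_le_mul_of_nonneg_right ?_ (h4 s).le) (h4 r).le
            linarith
          nlinarith
        exact le_of_mul_le_mul_right h8 (h4 _)
      have hsmall : ∀ s, ∑ i, K s (∑ j, A i j • y j) ^ 2 ≤ ∑ j, ‖y j‖ ^ 2 := fun s =>
        (Finset.sum_le_sum fun i _ => hKn s _).trans hS0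
      -- summation
      have h1 : ∑ i, p (∑ j, A i j • y j) ^ 2 = ∑ i, ‖∑ j, A i j • y j‖ ^ 2 +
          (β - 1) * ∑ s ∈ Finset.range (m + 1), β ^ s * ∑ i, K s (∑ j, A i j • y j) ^ 2 := by
        simp_rw [hp, Finset.sum_add_distrib, ← Finset.mul_sum]
        rw [Finset.sum_comm]
        simp_rw [← Finset.mul_sum]
      have h2 : ∑ j, p (y j) ^ 2 = ∑ j, ‖y j‖ ^ 2 +
          (β - 1) * ∑ s ∈ Finset.range (m + 1), β ^ s * ∑ j, K s (y j) ^ 2 := by
        simp_rw [hp, Finset.sum_add_distrib, ← Finset.mul_sum]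
        rw [Finset.sum_comm]
        simp_rw [← Finset.mul_sum]
      rw [h1, h2]
      obtain ⟨n, hn⟩ := Nat.exists_eq_add_of_le hr
      have h3 : ∑ s ∈ Finset.range (m + 1), β ^ s * ∑ i, K s (∑ j, A i j • y j) ^ 2 ≤
          (∑ s ∈ Finset.range r, β ^ s) * ∑ j, ‖y j‖ ^ 2 +
            β ^ r * ∑ s ∈ Finset.range n, β ^ s * ∑ j, K s (y j) ^ 2 := by
        rw [hn, Finset.sum_range_add, Finset.sum_mul, Finset.mul_sum]
        refine add_le_add ?_ ?_
        · exact Finset.sum_le_sum fun s _ =>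
            mul_le_mul_of_nonneg_left (hsmall s) (by positivity)
        · refine Finset.sum_le_sum fun s _ => ?_
          rw [pow_add, mul_assoc]
          exact mul_le_mul_of_nonneg_left (mul_le_mul_of_nonneg_left (hbig s) (by positivity))
            (by positivity)
      have h5 : ∑ s ∈ Finset.range n, β ^ s * ∑ j, K s (y j) ^ 2 ≤
          ∑ s ∈ Finset.range (m + 1), β ^ s * ∑ j, K s (y j) ^ 2 := by
        refine Finset.sum_le_sum_of_subset_of_nonneg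
          (Finset.range_subset_range.2 (by omega)) fun s _ _ => ?_
        exact mul_nonneg (by positivity) (Finset.sum_nonneg fun j _ => hK0 _ _)
      have h6 := mul_le_mul_of_nonneg_left h3 hβ'
      have h7 : (β - 1) * ((∑ s ∈ Finset.range r, β ^ s) * ∑ j, ‖y j‖ ^ 2 +
            β ^ r * ∑ s ∈ Finset.range n, β ^ s * ∑ j, K s (y j) ^ 2) =
          (β ^ r - 1) * ∑ j, ‖y j‖ ^ 2 +
            β ^ r * ((β - 1) * ∑ s ∈ Finset.range n, β ^ s * ∑ j, K s (y j) ^ 2) := by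
        rw [← hgeo r]
        ring
      rw [h7] at h6
      have h8 := mul_le_mul_of_nonneg_left (mul_le_mul_of_nonneg_left h5 hβ')
        (by positivity : (0 : ℝ) ≤ β ^ r)
      linarith

end Pool.HAP
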